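import Pool.Agent.LRG.StmtsH

/-!
# Row TRI of the squad LRG (the free coordinates of an arc are algebraically independent)
-/

set_option autoImplicit false

open Polynomial

namespace Pool.Agent.LRG.H60

theorem map_aeval_int {σ A B : Type} [CommRing A] [CommRing B] [Algebra ℤ A] [Algebra ℤ B]
    (f : A →+* B) (x : σ → A) (q : MvPolynomial σ ℤ) :
    f (MvPolynomial.aeval x q) = MvPolynomial.aeval (fun i => f (x i)) q := by
  induction q using MvPolynomial.induction_on with
  | C a => simp
  | add p q hp hq => rw [map_add, map_add, map_add, hp, hq]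
  | mul_X p i hp => rw [map_mul, map_mul, map_mul, hp, MvPolynomial.aeval_X, MvPolynomial.aeval_X]

/-- **Row TRI** -/
theorem tri : H.TriStmt := by
  intro p _ m d hd a e
  have hp : ((p : ℤ) ^ e) ≠ 0 := pow_ne_zero _ (by exact_mod_cast (Fact.out : p.Prime).ne_zero)
  have h1 : AlgebraicIndependent ℤ (fun i => aeval (d i) (C ((p : ℤ) ^ e) * X + C (a i) : ℤ[X])) := by
    refine hd.polynomial_aeval_of_transcendental fun i => ?_
    refine Polynomial.transcendental _ ?_ ?_
    · rw [natDegree_linear hp]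
      exact one_ne_zero
    · rw [leadingCoeff_linear hp]
      exact mem_nonZeroDivisors_of_ne_zero hp
  rw [algebraicIndependent_iff] at h1 ⊢
  intro q hq
  apply h1
  have h2 : MvPolynomial.aeval
      (fun i => (C (a i : ℤ_[p]) + C ((p : ℤ_[p]) ^ e * d i) * X : ℤ_[p][X])) q = 0 := by
    apply Polynomial.coe_injective ℤ_[p]
    have h3 := map_aeval_int (coeToPowerSeries.ringHom (R := ℤ_[p]))
      (fun i => (C (a i : ℤ_[p]) + C ((p : ℤ_[p]) ^ e * d i) * X : ℤ_[p][X])) q
    rw [coeToPowerSeries.ringHom_apply] at h3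
    rw [h3, Polynomial.coe_zero, ← hq]
    congr 2
    funext i
    rw [coeToPowerSeries.ringHom_apply, Polynomial.coe_add, Polynomial.coe_mul, Polynomial.coe_C,
      Polynomial.coe_C, Polynomial.coe_X]
  have h4 := map_aeval_int (evalRingHom (1 : ℤ_[p]))
    (fun i => (C (a i : ℤ_[p]) + C ((p : ℤ_[p]) ^ e * d i) * X : ℤ_[p][X])) q
  rw [h2, map_zero] at h4
  rw [h4]
  congr 2
  funext i
  simp [add_comm]

end Pool.Agent.LRG.H60
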